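import Pool.Agent.X71.MG.Discrete
import Pool.Agent.X71.MG.Lower

set_option autoImplicit false
set_option linter.unusedSectionVars false
set_option linter.unusedSimpArgs false

namespace Pool.Agent.Results.MP_7c139f_co.HigherGonalityDrops

open Finset Pool.Agent.X71.MG

/-- The graph is connected: any two vertices are joined by a walk. -/
def Connected {V E : Type} (G : MGraph V E) : Prop :=
  Nonempty V ∧ ∀ u v : V, Relation.ReflTransGen
    (fun a b => ∃ e, (G.src e = a ∧ G.tgt e = b) ∨ (G.src e = b ∧ G.tgt e = a)) u v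

/-- first ends -/
def src : Fin 51 → Fin 15 :=
    ![0, 0, 0, 0, 0, 0, 0, 0, 1, 1, 1, 1, 1, 1, 1, 2, 2, 2, 2, 2, 2, 3, 3, 3, 3, 3, 4, 4, 4,
    4, 5, 5, 5, 6, 6, 7, 9, 9, 9, 9, 10, 10, 10, 10, 0, 0, 11, 11, 11, 12, 13]

/-- second ends -/
def tgt : Fin 51 → Fin 15 :=
    ![1, 2, 3, 4, 5, 6, 7, 8, 2, 3, 4, 5, 6, 7, 8, 3, 4, 5, 6, 7, 8, 4, 5, 6, 7, 8, 5, 6, 7,
    8, 6, 7, 8, 7, 8, 8, 0, 0, 0, 12, 12, 12, 12, 13, 11, 14, 13, 13, 13, 14, 14]

/-- The graph: a complete graph on the vertices `0, …, 8` and a graph with seven vertices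
`0, 9, …, 14` and fifteen edges, sharing the vertex `0`. -/
def G : MGraph (Fin 15) (Fin 51) := ⟨src, tgt, by decide +kernel⟩

/-- the vertices of the complete graph -/
def K : Finset (Fin 15) := univ.filter (fun v => v < 9)

theorem K_card : K.card = 9 := by decide +kernel

theorem clique1 : ∀ i ∈ K, ∀ j ∈ K, i ≠ j →
    ∃ e, (G.src e = i ∧ G.tgt e = j) ∨ (G.src e = j ∧ G.tgt e = i) := by
  decide +kernel

theorem clique2 : ∀ v ∈ K, v ≠ 0 →
    ∀ e, (G.src e = v → G.tgt e ∈ K) ∧ (G.tgt e = v → G.src e ∈ K) := by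
  decide +kernel

/-- neighbour on the way to the vertex `0` -/
def par : Fin 15 → Fin 15 := ![0, 0, 0, 0, 0, 0, 0, 0, 0, 0, 12, 0, 9, 11, 0]

theorem par_adj : ∀ v : Fin 15, v = 0 ∨
    ∃ e, (G.src e = v ∧ G.tgt e = par v) ∨ (G.src e = par v ∧ G.tgt e = v) := by
  decide +kernel

theorem par_three : ∀ v : Fin 15, par (par (par v)) = 0 := by decide +kernel

theorem par_zero : par 0 = 0 := rfl

theorem connected : Connected G := by
  refine ⟨⟨0⟩, ?_⟩
  have hstep : ∀ v : Fin 15, Relation.ReflTransGen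
      (fun a b => ∃ e, (G.src e = a ∧ G.tgt e = b) ∨ (G.src e = b ∧ G.tgt e = a)) v (par v) := by
    intro v
    rcases par_adj v with h | h
    · rw [h, par_zero]
    · exact Relation.ReflTransGen.single h
  have hzero : ∀ v : Fin 15, Relation.ReflTransGen
      (fun a b => ∃ e, (G.src e = a ∧ G.tgt e = b) ∨ (G.src e = b ∧ G.tgt e = a)) v 0 := by
    intro v
    have := ((hstep v).trans (hstep (par v))).trans (hstep (par (par v)))
    rwa [par_three] at this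
  have hrev : ∀ a b : Fin 15, Relation.ReflTransGen
      (fun a b => ∃ e, (G.src e = a ∧ G.tgt e = b) ∨ (G.src e = b ∧ G.tgt e = a)) a b →
      Relation.ReflTransGen
      (fun a b => ∃ e, (G.src e = a ∧ G.tgt e = b) ∨ (G.src e = b ∧ G.tgt e = a)) b a := by
    intro a b h
    induction h with
    | refl => exact Relation.ReflTransGen.refl
    | tail _ h ih =>
      obtain ⟨e, he⟩ := h
      exact Relation.ReflTransGen.head ⟨e, he.symm⟩ ih
  intro u v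
  exact (hzero u).trans (hrev v 0 (hzero v))

/-! ### The first gonality -/

/-- firing scripts for the divisor `8·(0)` -/
def C8 : Fin 15 → Fin 15 → ℤ :=
    ![![0, 0, 0, 0, 0, 0, 0, 0, 0, 0, 0, 0, 0, 0, 0],
    ![1, 0, 0, 0, 0, 0, 0, 0, 0, 1, 1, 1, 1, 1, 1],
    ![1, 0, 0, 0, 0, 0, 0, 0, 0, 1, 1, 1, 1, 1, 1],
    ![1, 0, 0, 0, 0, 0, 0, 0, 0, 1, 1, 1, 1, 1, 1],
    ![1, 0, 0, 0, 0, 0, 0, 0, 0, 1, 1, 1, 1, 1, 1],
    ![1, 0, 0, 0, 0, 0, 0, 0, 0, 1, 1, 1, 1, 1, 1],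
    ![1, 0, 0, 0, 0, 0, 0, 0, 0, 1, 1, 1, 1, 1, 1],
    ![1, 0, 0, 0, 0, 0, 0, 0, 0, 1, 1, 1, 1, 1, 1],
    ![1, 0, 0, 0, 0, 0, 0, 0, 0, 1, 1, 1, 1, 1, 1],
    ![1, 1, 1, 1, 1, 1, 1, 1, 1, 0, 0, 0, 0, 0, 0],
    ![4, 4, 4, 4, 4, 4, 4, 4, 4, 3, 0, 1, 1, 1, 2],
    ![1, 1, 1, 1, 1, 1, 1, 1, 1, 0, 0, 0, 0, 0, 0],
    ![2, 2, 2, 2, 2, 2, 2, 2, 2, 1, 0, 0, 0, 0, 0],
    ![3, 3, 3, 3, 3, 3, 3, 3, 3, 2, 0, 0, 0, 0, 1],
    ![1, 1, 1, 1, 1, 1, 1, 1, 1, 0, 0, 0, 0, 0, 0]]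

theorem cert8 : ∀ u v : Fin 15,
    0 ≤ (if v = 0 then (8:ℤ) else 0) - (if v = u then 1 else 0) - G.lap (C8 u) v := by
  decide +kernel

theorem eff_one_fin {n : ℕ} {A : Fin n → ℤ} (hA : ∀ v, 0 ≤ A v) (h : ∑ v, A v = 1) :
    ∃ u, ∀ v, A v = if v = u then 1 else 0 := by
  obtain ⟨u, hu⟩ := dec_pos (A := A) (by omega)
  have h0 : ∀ v, 0 ≤ A v - (if v = u then 1 else 0) := fun v => by
    have := hA v
    split_ifs with hv
    · rw [hv]; omega
    · omega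
  have hs : ∑ v, (A v - (if v = u then 1 else 0)) = 0 := by
    rw [sum_sub_distrib, h]; simp
  have := (sum_eq_zero_iff_of_nonneg fun v _ => h0 v).1 hs
  exact ⟨u, fun v => by have := this v (mem_univ v); omega⟩

theorem rank8 : G.RankGe 1 (fun v => if v = 0 then 8 else 0) := by
  intro A hA hdeg
  obtain ⟨u, hu⟩ := eff_one_fin hA (by simpa using hdeg)
  refine ⟨fun v => (if v = 0 then (8:ℤ) else 0) - (if v = u then 1 else 0) - G.lap (C8 u) v,
    cert8 u, C8 u, fun v => ?_⟩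
  beta_reduce
  rw [hu v]

theorem dgon_one_le : G.dgon 1 ≤ 8 :=
  Nat.sInf_le ⟨fun v => if v = 0 then 8 else 0, by simp, rank8⟩

theorem mdgon_one_ge : 8 ≤ G.mdgon 1 := by
  have hne : {d : ℕ | ∃ D : Pt (Fin 15) (Fin 51) →₀ ℤ, mdeg D = (d : ℤ) ∧ G.MRankGe 1 D}.Nonempty :=
    ⟨8, hd (fun v => if v = 0 then 8 else 0) 0, by rw [mdeg_hd]; simp, rank_one_metric G rank8⟩
  obtain ⟨D, hD, hr⟩ := Nat.sInf_mem hne
  have := clique_bound G K 0 (by decide +kernel) clique1 clique2 D hr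
  rw [K_card, hD] at this
  unfold MGraph.mdgon
  push_cast at this
  omega

theorem mdgon_le_dgon : G.mdgon 1 ≤ G.dgon 1 := by
  have hne : {d : ℕ | ∃ D : Fin 15 → ℤ, ∑ v, D v = (d : ℤ) ∧ G.RankGe 1 D}.Nonempty :=
    ⟨8, fun v => if v = 0 then 8 else 0, by simp, rank8⟩
  obtain ⟨D, hD, hr⟩ := Nat.sInf_mem hne
  exact Nat.sInf_le ⟨hd D 0, by rw [mdeg_hd, hD]; simp; rfl, rank_one_metric G hr⟩

theorem dgon_one : G.dgon 1 = 8 :=
  le_antisymm dgon_one_le (mdgon_one_ge.trans mdgon_le_dgon)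

theorem mdgon_one : G.mdgon 1 = 8 :=
  le_antisymm (mdgon_le_dgon.trans dgon_one_le) mdgon_one_ge

/-! ### The second gonality of the metric graph -/

/-- the seven vertices of the second piece -/
def σ : Fin 7 → Fin 15 := ![9, 10, 0, 11, 12, 13, 14]

/-- the nine vertices of the first piece -/
def τ : Fin 9 → Fin 15 := ![0, 1, 2, 3, 4, 5, 6, 7, 8]

/-- chips at the vertices -/
def D1v : Fin 15 → ℤ := fun v => if v = 0 ∨ v = 9 then 1 else 0

/-- chips at the midpoints -/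
def D1e : Fin 51 → ℤ := fun e => if e = 43 ∨ e = 45 then 1 else 0

/-- firing scripts, vertices -/
def C1V : Fin 7 → Fin 15 → ℤ :=
    ![![0, 0, 0, 0, 0, 0, 0, 0, 0, 0, 0, 0, 0, 0, 0],
    ![2, 2, 2, 2, 2, 2, 2, 2, 2, 2, 0, 1, 0, 1, 1],
    ![0, 0, 0, 0, 0, 0, 0, 0, 0, 0, 0, 0, 0, 0, 0],
    ![2, 2, 2, 2, 2, 2, 2, 2, 2, 2, 1, 0, 1, 0, 1],
    ![2, 2, 2, 2, 2, 2, 2, 2, 2, 2, 0, 1, 0, 1, 1],
    ![2, 2, 2, 2, 2, 2, 2, 2, 2, 2, 1, 0, 1, 0, 1],
    ![1, 1, 1, 1, 1, 1, 1, 1, 1, 1, 0, 0, 0, 0, 0]]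

/-- firing scripts, midpoints -/
def C1E : Fin 7 → Fin 51 → ℤ :=
    ![![0, 0, 0, 0, 0, 0, 0, 0, 0, 0, 0, 0, 0, 0, 0, 0, 0, 0, 0, 0, 0, 0, 0, 0, 0, 0, 0, 0, 0,
    0, 0, 0, 0, 0, 0, 0, 0, 0, 0, 0, 0, 0, 0, 0, 0, 0, 0, 0, 0, 0, 0],
    ![2, 2, 2, 2, 2, 2, 2, 2, 2, 2, 2, 2, 2, 2, 2, 2, 2, 2, 2, 2, 2, 2, 2, 2, 2, 2, 2, 2, 2,
    2, 2, 2, 2, 2, 2, 2, 2, 2, 2, 1, 0, 0, 0, 1, 1, 2, 1, 1, 1, 0, 1],
    ![0, 0, 0, 0, 0, 0, 0, 0, 0, 0, 0, 0, 0, 0, 0, 0, 0, 0, 0, 0, 0, 0, 0, 0, 0, 0, 0, 0, 0,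
    0, 0, 0, 0, 0, 0, 0, 0, 0, 0, 0, 0, 0, 0, 0, 0, 0, 0, 0, 0, 0, 0],
    ![2, 2, 2, 2, 2, 2, 2, 2, 2, 2, 2, 2, 2, 2, 2, 2, 2, 2, 2, 2, 2, 2, 2, 2, 2, 2, 2, 2, 2,
    2, 2, 2, 2, 2, 2, 2, 2, 2, 2, 1, 1, 1, 1, 1, 1, 2, 0, 0, 0, 1, 0],
    ![2, 2, 2, 2, 2, 2, 2, 2, 2, 2, 2, 2, 2, 2, 2, 2, 2, 2, 2, 2, 2, 2, 2, 2, 2, 2, 2, 2, 2,
    2, 2, 2, 2, 2, 2, 2, 2, 2, 2, 1, 0, 0, 0, 1, 1, 2, 1, 1, 1, 0, 1],
    ![2, 2, 2, 2, 2, 2, 2, 2, 2, 2, 2, 2, 2, 2, 2, 2, 2, 2, 2, 2, 2, 2, 2, 2, 2, 2, 2, 2, 2,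
    2, 2, 2, 2, 2, 2, 2, 2, 2, 2, 1, 1, 1, 1, 1, 1, 2, 0, 0, 0, 1, 0],
    ![1, 1, 1, 1, 1, 1, 1, 1, 1, 1, 1, 1, 1, 1, 1, 1, 1, 1, 1, 1, 1, 1, 1, 1, 1, 1, 1, 1, 1,
    1, 1, 1, 1, 1, 1, 1, 1, 1, 1, 0, 0, 0, 0, 0, 0, 1, 0, 0, 0, 0, 0]]

theorem cert1v : ∀ (a : Fin 7) (v : Fin 15), 0 ≤ D1v v +
    ∑ e : Fin 51, ((if G.src e = v then C1E a e - C1V a v else 0) +
      (if G.tgt e = v then C1E a e - C1V a v else 0)) - (if v = σ a then 1 else 0) := by
  decide +kernel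

theorem cert1e : ∀ (a : Fin 7) (e : Fin 51), 0 ≤ D1e e +
    (C1V a (G.src e) + C1V a (G.tgt e) - 2 * C1E a e) := by
  decide +kernel

theorem covD1 (a : Fin 7) : G.Cov (hd D1v D1e) (Sum.inl (σ a)) := by
  refine ⟨hd (fun v => D1v v + ∑ e : Fin 51, ((if G.src e = v then C1E a e - C1V a v else 0) +
      (if G.tgt e = v then C1E a e - C1V a v else 0)))
    (fun e => D1e e + (C1V a (G.src e) + C1V a (G.tgt e) - 2 * C1E a e)),
    hd_nonneg (fun v => ?_) (cert1e a), ?_, hd_equiv G (C1V a) (C1E a) (fun v => rfl) fun e => rfl⟩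
  · have := cert1v a v
    have h0 : (0:ℤ) ≤ if v = σ a then 1 else 0 := by split_ifs <;> norm_num
    omega
  · have := cert1v a (σ a)
    rw [if_pos rfl] at this
    rw [hd_inl]
    omega

theorem covP8 (v : Fin 15) :
    G.Cov (hd (fun v => if v = 0 then 8 else 0) (0 : Fin 51 → ℤ)) (Sum.inl v) := by
  refine ⟨hd (fun w => (if w = 0 then (8:ℤ) else 0) - G.lap (C8 v) w) 0,
    hd_nonneg (fun w => ?_) (fun _ => le_rfl), ?_, hd_equiv_int G ⟨C8 v, fun w => rfl⟩⟩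
  · have := cert8 v w
    have h0 : (0:ℤ) ≤ if w = v then 1 else 0 := by split_ifs <;> norm_num
    omega
  · have := cert8 v v
    rw [hd_inl]
    rw [if_pos (rfl : v = v)] at this
    omega

/-- firing scripts for the divisor `9·(0)` -/
def C9 (u v w : Fin 15) : ℤ := if w = 0 ∨ 9 ≤ w then 1 else if u = v ∧ w = u then -1 else 0

theorem cert9 : ∀ u v : Fin 15, u ≠ 0 → u < 9 → v ≠ 0 → v < 9 → ∀ w : Fin 15,
    0 ≤ (if w = 0 then (9:ℤ) else 0) - (if w = u then 1 else 0) - (if w = v then 1 else 0) -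
      G.lap (C9 u v) w := by
  decide +kernel

theorem cover_cases : ∀ u : Fin 15, (∃ a, u = σ a) ∨ (u ≠ 0 ∧ u < 9) := by decide +kernel

theorem single_hd (u : Fin 15) :
    (Finsupp.single (Sum.inl u) 1 : Pt (Fin 15) (Fin 51) →₀ ℤ) =
      hd (fun v => if v = u then 1 else 0) 0 := by
  ext x
  rw [Finsupp.single_apply]
  rcases x with w | ⟨e, t⟩
  · rw [hd_inl]
    simp only [Sum.inl.injEq]
    by_cases h : w = u
    · rw [if_pos h, if_pos h.symm]
    · rw [if_neg h, if_neg (Ne.symm h)]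
  · rw [hd_inr]
    simp

theorem rank12 : G.MRankGe 2
    (hd D1v D1e + hd (fun v => if v = 0 then 8 else 0) (0 : Fin 51 → ℤ)) := by
  apply mrank_two
  intro u v
  rcases cover_cases u with ⟨a, rfl⟩ | ⟨hu0, hu9⟩
  · obtain ⟨A, hA, hEA⟩ := (cov_iff G _ _).1 (covD1 a)
    obtain ⟨B, hB, hBv, hEB⟩ := covP8 v
    refine ⟨A + B, fun y => add_nonneg (hA y) (hB y), ?_, ?_⟩
    · rw [Finsupp.add_apply]
      have := hA (Sum.inl v)
      omega
    · have := MEquiv.add G hEA hEB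
      rwa [sub_add_eq_add_sub] at this
  · rcases cover_cases v with ⟨a, rfl⟩ | ⟨hv0, hv9⟩
    · obtain ⟨B, hB, hEB⟩ := (cov_iff G _ _).1 (covP8 u)
      obtain ⟨A, hA, hAv, hEA⟩ := covD1 a
      refine ⟨A + B, fun y => add_nonneg (hA y) (hB y), ?_, ?_⟩
      · rw [Finsupp.add_apply]
        have := hB (Sum.inl (σ a))
        omega
      · have := MEquiv.add G hEA hEB
        rwa [← add_sub_assoc] at this
    · obtain ⟨A, hA, hEA⟩ := (cov_iff G _ _).1 (covD1 2)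
      rw [cov_iff]
      have hE9 := hd_equiv_int G (D := fun w => (if w = 0 then (9:ℤ) else 0) -
        (if w = u then 1 else 0) - (if w = v then 1 else 0)) ⟨C9 u v, fun w => rfl⟩
      refine ⟨A + hd (fun w => (if w = 0 then (9:ℤ) else 0) - (if w = u then 1 else 0) -
        (if w = v then 1 else 0) - G.lap (C9 u v) w) 0, fun y => add_nonneg (hA y)
          (hd_nonneg (cert9 u v hu0 hu9 hv0 hv9) (fun _ => le_rfl) y), ?_⟩
      have h := MEquiv.add G hEA hE9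
      have heq : hd D1v D1e - Finsupp.single (Sum.inl (σ 2)) 1 +
          hd (fun w => (if w = 0 then (9:ℤ) else 0) - (if w = u then 1 else 0) -
            (if w = v then 1 else 0)) 0 =
          hd D1v D1e + hd (fun v => if v = 0 then 8 else 0) (0 : Fin 51 → ℤ) -
            Finsupp.single (Sum.inl u) 1 - Finsupp.single (Sum.inl v) 1 := by
        have hσ : σ 2 = 0 := rfl
        rw [single_hd, single_hd, single_hd, hσ]
        ext x
        simp only [Finsupp.add_apply, Finsupp.sub_apply]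
        rcases x with w | ⟨e, t⟩
        · simp only [hd_inl]
          by_cases hw : w = 0
          · rw [if_pos hw, if_pos hw, if_pos hw]; ring
          · rw [if_neg hw, if_neg hw, if_neg hw]; ring
        · simp only [hd_inr, Pi.zero_apply, ite_self]
          ring
      rwa [heq] at h

theorem mdgon_two_le : G.mdgon 2 ≤ 12 :=
  Nat.sInf_le ⟨_, by
    rw [mdeg_add, mdeg_hd, mdeg_hd]
    decide +kernel, rank12⟩

/-! ### The second gonality of the graph -/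

theorem mult_eq : ∀ v w : Fin 15, G.mult v w =
    (∑ a, ∑ b, if σ a = v ∧ σ b = w then M7 a b else 0) +
      (∑ a, ∑ b, if τ a = v ∧ τ b = w then M9 a b else 0) := by
  decide +kernel

theorem σ_inj : ∀ a b : Fin 7, σ a = σ b → a = b := by decide +kernel
theorem τ_inj : ∀ a b : Fin 9, τ a = τ b → a = b := by decide +kernel
theorem σ_τ : ∀ (a : Fin 7) (b : Fin 9), σ a = τ b → a = 2 ∧ b = 0 := by decide +kernel

theorem lap_zero (f : Fin 15 → ℤ) :
    G.lap f 0 = ml M7 (fun a => f (σ a)) 2 + ml M9 (fun a => f (τ a)) 0 := by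
  rw [lap_split G σ τ M7 M9 mult_eq f 0]
  congr 1
  · rw [sum_eq_single 2]
    · exact if_pos rfl
    · intro a _ ha
      rw [if_neg (fun h => ha (σ_inj a 2 (h.trans rfl)))]
    · intro h; exact absurd (mem_univ _) h
  · rw [sum_eq_single 0]
    · exact if_pos rfl
    · intro a _ ha
      rw [if_neg (fun h => ha (τ_inj a 0 (h.trans rfl)))]
    · intro h; exact absurd (mem_univ _) h

theorem lap_σ (f : Fin 15 → ℤ) {a : Fin 7} (ha : a ≠ 2) :
    G.lap f (σ a) = ml M7 (fun a => f (σ a)) a := by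
  rw [lap_split G σ τ M7 M9 mult_eq f (σ a), sum_eq_single a, if_pos rfl, sum_eq_zero, add_zero]
  · intro b _
    rw [if_neg (fun h => ha (σ_τ a b h.symm).1)]
  · intro b _ hb
    rw [if_neg (fun h => hb (σ_inj b a h))]
  · intro h; exact absurd (mem_univ _) h

theorem lap_τ (f : Fin 15 → ℤ) {a : Fin 9} (ha : a ≠ 0) :
    G.lap f (τ a) = ml M9 (fun a => f (τ a)) a := by
  rw [lap_split G σ τ M7 M9 mult_eq f (τ a), sum_eq_zero, zero_add, sum_eq_single a, if_pos rfl]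
  · intro b _ hb
    rw [if_neg (fun h => hb (τ_inj b a h))]
  · intro h; exact absurd (mem_univ _) h
  · intro b _
    rw [if_neg (fun h => ha (σ_τ b a h).2)]

theorem sum_parts (D : Fin 15 → ℤ) : ∑ v, D v = D 0 + (∑ a : Fin 7, if a = 2 then 0 else D (σ a)) +
    (∑ b : Fin 9, if b = 0 then 0 else D (τ b)) := by
  simp only [Fin.sum_univ_succ, σ, τ]
  simp
  ring

theorem no_rank_two (D : Fin 15 → ℤ) (hD : ∑ v, D v ≤ 12) : ¬ G.RankGe 2 D := by
  intro hr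
  set s1 : ℤ := ∑ a : Fin 7, if a = 2 then 0 else D (σ a) with hs1
  set s2 : ℤ := ∑ b : Fin 9, if b = 0 then 0 else D (τ b) with hs2
  have hsum : D 0 + s1 + s2 ≤ 12 := by rw [hs1, hs2, ← sum_parts]; exact hD
  have hA : ∑ a : Fin 7, (if a = 2 then 4 - s1 else D (σ a)) = 4 := by
    have : ∀ a : Fin 7, (if a = 2 then 4 - s1 else D (σ a)) =
        (if a = 2 then 4 - s1 else 0) + (if a = 2 then 0 else D (σ a)) := by
      intro a; split_ifs <;> ring
    simp only [this, sum_add_distrib]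
    rw [← hs1]
    simp
  have hB : ∑ b : Fin 9, (if b = 0 then D 0 - (4 - s1) - 1 else D (τ b)) ≤ 7 := by
    have : ∀ b : Fin 9, (if b = 0 then D 0 - (4 - s1) - 1 else D (τ b)) =
        (if b = 0 then D 0 - (4 - s1) - 1 else 0) + (if b = 0 then 0 else D (τ b)) := by
      intro b; split_ifs <;> ring
    simp only [this, sum_add_distrib]
    rw [← hs2]
    simp
    linarith
  obtain ⟨x, hx⟩ := claim1 _ hA
  obtain ⟨y, hy⟩ := claim2 _ hB
  obtain ⟨D', hD', f, hf⟩ := hr (fun v => (if v = σ x then 1 else 0) + (if v = τ y then 1 else 0))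
    (fun v => by positivity) (by
      rw [sum_add_distrib]
      simp)
  have hσa : ∀ a : Fin 7, a ≠ 2 → D' (σ a) = D (σ a) - (if a = x then 1 else 0) -
      ml M7 (fun a => f (σ a)) a := by
    intro a ha
    rw [hf (σ a), lap_σ f ha]
    beta_reduce
    rw [if_neg (show ¬ σ a = τ y from fun h => ha (σ_τ a y h).1), add_zero]
    congr 2
    by_cases h : a = x
    · rw [if_pos h, if_pos (by rw [h])]
    · rw [if_neg h, if_neg (fun h' => h (σ_inj a x h'))]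
  have hτb : ∀ b : Fin 9, b ≠ 0 → D' (τ b) = D (τ b) - (if b = y then 1 else 0) -
      ml M9 (fun a => f (τ a)) b := by
    intro b hb
    rw [hf (τ b), lap_τ f hb]
    beta_reduce
    rw [if_neg (show ¬ τ b = σ x from fun h => hb (σ_τ x b h.symm).2), zero_add]
    congr 2
    by_cases h : b = y
    · rw [if_pos h, if_pos (by rw [h])]
    · rw [if_neg h, if_neg (fun h' => h (τ_inj b y h'))]
  have h0 : D' 0 = D 0 - ((if (2 : Fin 7) = x then 1 else 0) + (if (0 : Fin 9) = y then 1 else 0)) -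
      (ml M7 (fun a => f (σ a)) 2 + ml M9 (fun a => f (τ a)) 0) := by
    have e1 : (if (0 : Fin 15) = σ x then (1:ℤ) else 0) = if (2 : Fin 7) = x then 1 else 0 := by
      by_cases h : (2 : Fin 7) = x
      · rw [if_pos h, if_pos (show (0 : Fin 15) = σ x by rw [← h]; rfl)]
      · rw [if_neg h, if_neg (show ¬ (0 : Fin 15) = σ x from
          fun h' => h (σ_inj 2 x (Eq.trans rfl h')))]
    have e2 : (if (0 : Fin 15) = τ y then (1:ℤ) else 0) = if (0 : Fin 9) = y then 1 else 0 := by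
      by_cases h : (0 : Fin 9) = y
      · rw [if_pos h, if_pos (show (0 : Fin 15) = τ y by rw [← h]; rfl)]
      · rw [if_neg h, if_neg (show ¬ (0 : Fin 15) = τ y from
          fun h' => h (τ_inj 0 y (Eq.trans rfl h')))]
    rw [hf 0, lap_zero f]
    beta_reduce
    rw [e1, e2]
  by_cases hα : 0 ≤ (4 - s1) - (if (2 : Fin 7) = x then 1 else 0) - ml M7 (fun a => f (σ a)) 2
  · apply hx
    refine ⟨fun a => f (σ a), fun a => ?_⟩
    by_cases ha : a = 2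
    · rw [ha, if_pos rfl]; exact hα
    · rw [if_neg ha, ← hσa a ha]; exact hD' _
  · apply hy
    refine ⟨fun b => f (τ b), fun b => ?_⟩
    by_cases hb : b = 0
    · rw [hb, if_pos rfl]
      have := hD' 0
      push Not at hα
      omega
    · rw [if_neg hb, ← hτb b hb]; exact hD' _

theorem dgon_two_ge : 13 ≤ G.dgon 2 := by
  have hne : {d : ℕ | ∃ D : Fin 15 → ℤ, ∑ v, D v = (d : ℤ) ∧ G.RankGe 2 D}.Nonempty := by
    refine ⟨30, fun _ => 2, by simp, ?_⟩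
    intro A hA hdeg
    refine ⟨fun v => 2 - A v, fun v => ?_, 0, fun v => ?_⟩
    · have : A v ≤ ∑ w, A w := single_le_sum (fun w _ => hA w) (mem_univ v)
      rw [hdeg] at this
      push_cast at this
      beta_reduce
      omega
    · simp [MGraph.lap]
  obtain ⟨D, hD, hr⟩ := Nat.sInf_mem hne
  by_contra hlt
  push Not at hlt
  refine no_rank_two D ?_ hr
  rw [hD]
  unfold MGraph.dgon at hlt
  exact_mod_cast Nat.lt_succ_iff.1 hlt

/-- **The metric graph can have smaller second gonality although the first gonalities agree.**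
There is a finite connected loopless multigraph `G` with `dgon(Γ(G)) = dgon(G)` and
`dgon_2(Γ(G)) < dgon_2(G)`. -/
theorem result : ∃ (V E : Type) (_ : Fintype V) (_ : Fintype E) (_ : DecidableEq V)
    (_ : DecidableEq E) (G : MGraph V E), Connected G ∧ G.mdgon 1 = G.dgon 1 ∧
      G.mdgon 2 < G.dgon 2 :=
  ⟨Fin 15, Fin 51, inferInstance, inferInstance, inferInstance, inferInstance, G, connected,
    mdgon_one.trans dgon_one.symm, lt_of_le_of_lt mdgon_two_le (lt_of_lt_of_le (by norm_num)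
      dgon_two_ge)⟩

end Pool.Agent.Results.MP_7c139f_co.HigherGonalityDrops
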